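import Pool.Agent.N882.UE.OrdTh
import Pool.Agent.N882.UE.Dens

/-!
# MP_17d720_ag: the density of the places of ordinary reduction and bilinear equations

`T : Realizations F` are the data of the cohomology with compact supports `H v n X = H^n_c(X, ℚ_p)` of the
schemes `X` over the number field `F`, as a representation of the Galois group of `F_v`, for the finite places
`v ∣ p` of `F`; `IsRealization T` lists the known properties which are used. `FT True X`: `X` is a variety
(separated and of finite type over `F`). `OrdAt T v X`: for all `n` the Newton polygon (slopes of the Frobenius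
of `D_pst`) and the Hodge polygon of `H v n X` coincide. For smooth projective `X` and all but finitely many
`v` this means that `X` has good ordinary reduction at `v` (Katz–Messing, Faltings, Illusie–Raynaud).

`ForEach Big (OrdAt T) K`: for every `X` in the class `K` the set of the places at which `X` is ordinary has the
property `Big`.

`bilS t` is the closed subscheme of the affine space given by the bilinear equations
`∑ t_ijl x_i y_j = 0`; `Short t`: the coefficients are `0` and `1`, and every equation has at most three terms.
`hypS t` is the smooth affine cubic hypersurface `∑ t_ijl x_i y_j z_l = 1`, and `tripS F H` is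
`∑_{(i, j, l) ∈ H} x_i y_j z_l = 1`.
-/

set_option autoImplicit false

open CategoryTheory AlgebraicGeometry Filter Pool.Agent.Y116.UV Pool.Agent.N882.UE Pool.Agent.Q282.UK
  Pool.Agent.Q282.UZ Pool.Agent.Z125.UN

namespace Pool.Agent.Results.MP_17d720_ag.DensityBilinear

variable {F : Type} [Field F]

/-- The set `S` of places has positive lower density, with respect to the norm `N`. -/
def PositiveDensity {I : Type} (N : I → ℕ) (S : Set I) : Prop :=
  ∃ δ : ℝ, 0 < δ ∧ ∀ᶠ x : ℕ in atTop, δ * {v | N v ≤ x}.ncard ≤ {v | v ∈ S ∧ N v ≤ x}.ncard

/-- Smooth proper varieties. -/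
def SmoothProper (X : Sch F) : Prop := Smooth X.hom ∧ IsProper X.hom

/-- Systems of bilinear equations. -/
def System (X : Sch F) : Prop := ∃ (a b c : ℕ) (t : Fin a → Fin b → Fin c → F), X = bilS t

/-- The hypersurfaces `t(x, y, z) = 1`. -/
def Cubic (X : Sch F) : Prop := ∃ (a b c : ℕ) (t : Fin a → Fin b → Fin c → F), X = hypS t

/-- Systems of bilinear equations with coefficients `0` and `1` and at most three terms in every
equation. -/
def ShortSystem (X : Sch F) : Prop :=
  ∃ (a b c : ℕ) (t : Fin a → Fin b → Fin c → F), Short t ∧ X = bilS t

/-- The hypersurfaces `∑_{(i, j, l) ∈ H} x_i y_j z_l = 1`. -/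
def TripleSet (X : Sch F) : Prop :=
  ∃ (a b c : ℕ) (H : Finset (Fin a × Fin b × Fin c)), X = tripS F H

/-- **Hironaka's theorem**, in the form of a principle of dévissage: a property of varieties over `F` with
the closure properties `Bnd` (in particular for closed-open decompositions) which is true for the smooth
proper varieties is true for all varieties. -/
def Hironaka (F : Type) [Field F] : Prop :=
  ∀ P : Sch F → Prop, Bnd True P → (∀ X : Sch F, SmoothProper X → P X) →
    ∀ X : Sch F, FT True X → P X

/-- Consequences of the formula of Künneth: for smooth proper varieties `X` and `Y` there is a smooth proper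
variety `Z` (for example the product) which is ordinary only at places at which `X` and `Y` are ordinary; and
the same is true for the product of two systems of bilinear equations, which is the direct sum of the
systems. -/
structure HasProducts (T : Realizations F) : Prop where
  smooth : ∀ X Y : Sch F, SmoothProper X → SmoothProper Y → ∃ Z : Sch F, SmoothProper Z ∧
    ∀ v, OrdAt T v Z → OrdAt T v X ∧ OrdAt T v Y
  system : ∀ {a b c a' b' c' : ℕ} (t : Fin a → Fin b → Fin c → F) (t' : Fin a' → Fin b' → Fin c' → F),
    ∀ v, OrdAt T v (bilS (dsum t t')) → OrdAt T v (bilS t) ∧ OrdAt T v (bilS t')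

/-- The equivalences for a notion `Big` of large sets of places. -/
def Equivalences (T : Realizations F) (Big : Set T.Place → Prop) : Prop :=
  [ForEach Big (OrdAt T) SmoothProper, ForEach Big (OrdAt T) (FT True), ForEach Big (OrdAt T) System,
    ForEach Big (OrdAt T) Cubic].TFAE ∧
  (Pool.Agent.Q193.LT.Frac F → [ForEach Big (OrdAt T) SmoothProper, ForEach Big (OrdAt T) ShortSystem,
    ForEach Big (OrdAt T) TripleSet].TFAE)

/-- **Theorem.** Let `F` be a number field with the norm `N` on its finite places, and let `T` be the data of
the realizations.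
(1) The following are equivalent: every smooth proper variety over `F` is ordinary at a set of places of
positive lower density (Q1 over `F`); every variety over `F`, singular or not, proper or not; every system of
bilinear equations `∑ t_ijl x_i y_j = 0` over `F`; every smooth affine cubic hypersurface `t(x, y, z) = 1` over
`F`. If `F = ℚ` (every element is a quotient of integers), it is enough to consider the systems with
coefficients `0` and `1` and at most three terms in every equation, or the hypersurfaces
`∑_{(i, j, l) ∈ H} x_i y_j z_l = 1` of the finite sets `H`.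
(2) The same is true for every other notion of large sets of places, such as infinite sets or sets of density
one. -/
theorem result [CharZero F] (T : Realizations F) (hT : IsRealization T) (hprod : HasProducts T)
    (resolution : Hironaka F) (N : T.Place → ℕ) (hN : ∀ x, {v | N v ≤ x}.Finite) :
    Equivalences T (PositiveDensity N) ∧
    ∀ Big : Set T.Place → Prop, (∀ S S', S ⊆ S' → Big S → Big S') → Equivalences T Big := by
  have main : ∀ Big : Set T.Place → Prop, (∀ S S', S ⊆ S' → Big S → Big S') →
      Equivalences T Big := by
    intro Big hBig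
    have hB : ∀ 𝓕 : Filter T.Place, Bnd True fun X => ∀ᶠ v in 𝓕, OrdAt T v X :=
      fun 𝓕 => bnd_filter 𝓕 (bnd_ord hT)
    have hC := fun 𝓕 => clo2_of_bnd (hB 𝓕)
    have ft : ∀ X : Sch F, SmoothProper X → FT True X := by
      rintro X ⟨h1, h2⟩
      exact ⟨inferInstance, inferInstance, fun _ => inferInstance⟩
    -- smooth proper varieties generate all varieties
    have h12 : ForEach Big (OrdAt T) SmoothProper → ForEach Big (OrdAt T) (FT True) := by
      intro h
      refine each_of_lists hBig (lists_of hBig (E := SmoothProper) (fun 𝓕 => resolution _ (hB 𝓕))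
        (lists_of_each hBig ?_ hprod.smooth h))
      exact ⟨Over.mk (𝟙 _), by change Smooth (𝟙 _); infer_instance,
        by change IsProper (𝟙 _); infer_instance⟩
    have h23 : ForEach Big (OrdAt T) (FT True) → ForEach Big (OrdAt T) System := by
      rintro h X ⟨a, b, c, t, rfl⟩
      exact h _ (ft_aff True)
    have h31 : ForEach Big (OrdAt T) System → ForEach Big (OrdAt T) SmoothProper := by
      intro h
      have h1 : ForLists Big (OrdAt T) System := by
        refine lists_of_each hBig ⟨_, 0, 0, 0, fun _ _ _ => 0, rfl⟩ ?_ h
        rintro X Y ⟨a, b, c, t, rfl⟩ ⟨a', b', c', t', rfl⟩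
        exact ⟨_, ⟨_, _, _, dsum t t', rfl⟩, hprod.system t t'⟩
      refine each_of_lists hBig (lists_of hBig (E := System) (fun 𝓕 h2 X hX => ?_) h1)
      exact clo_universal (S := Set.univ) (hC 𝓕).toClo trivial trivial
        (fun a b c t _ => h2 _ ⟨a, b, c, t, rfl⟩) presents_univ X (ft X hX)
    have hcub : ∀ (a b c : ℕ) (t : Fin a → Fin b → Fin c → F),
        {v | OrdAt T v (bilS t)} = {v | OrdAt T v (hypS t)} := by
      intro a b c t
      ext v
      exact bil_iff (bnd_ord hT v) t
    refine ⟨?_, fun hF => ?_⟩
    · tfae_have 1 → 2 := h12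
      tfae_have 2 → 3 := h23
      tfae_have 3 → 1 := h31
      tfae_have 3 → 4 := by
        rintro h X ⟨a, b, c, t, rfl⟩
        rw [← hcub]
        exact h _ ⟨a, b, c, t, rfl⟩
      tfae_have 4 → 3 := by
        rintro h X ⟨a, b, c, t, rfl⟩
        rw [hcub]
        exact h _ ⟨a, b, c, t, rfl⟩
      tfae_finish
    · have hS := short_frac hF
      tfae_have 1 → 3 := by
        rintro h X ⟨a, b, c, H, rfl⟩
        exact h12 h _ (ft_aff True)
      tfae_have 3 → 2 := by
        rintro h X ⟨a, b, c, t, ht, rfl⟩
        obtain ⟨H, hH⟩ := tripS_eq t ht.1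
        rw [hcub, hH]
        exact h _ ⟨a, b, c, H, rfl⟩
      tfae_have 2 → 1 := by
        intro h
        have h1 : ForLists Big (OrdAt T) ShortSystem := by
          refine lists_of_each hBig ⟨_, 0, 0, 0, fun _ _ _ => 0, ⟨fun i => i.elim0, fun l => l.elim0⟩,
            rfl⟩ ?_ h
          rintro X Y ⟨a, b, c, t, ht, rfl⟩ ⟨a', b', c', t', ht', rfl⟩
          exact ⟨_, ⟨_, _, _, dsum t t', short_sum ht ht', rfl⟩, hprod.system t t'⟩
        refine each_of_lists hBig (lists_of hBig (E := ShortSystem) (fun 𝓕 h2 X hX => ?_) h1)
        refine (three_iff hS (hC 𝓕).toClo).mpr (fun a b c E hE => ?_) X (ft X hX)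
        rw [sysS_eq]
        exact h2 _ ⟨a, b, c, _, short_ofSets E hE, rfl⟩
      tfae_finish
  refine ⟨main _ ?_, main⟩
  rintro S S' hS ⟨δ, hδ, h⟩
  refine ⟨δ, hδ, h.mono fun x hx => hx.trans ?_⟩
  have h1 : {v | v ∈ S ∧ N v ≤ x}.ncard ≤ {v | v ∈ S' ∧ N v ≤ x}.ncard :=
    Set.ncard_le_ncard (fun v hv => ⟨hS hv.1, hv.2⟩) ((hN x).subset fun v hv => hv.2)
  exact_mod_cast h1

end Pool.Agent.Results.MP_17d720_ag.DensityBilinear
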