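import Pool.Agent.N184.HK.Num

/-!
# Ordinary primes of projective hyperkähler varieties

Let `X` be a projective hyperkähler variety over a number field `K` (of any deformation type, with
`b_2 ≥ 3`).

* At a place `v` of good reduction the Newton polygon of `H^i(X_v)` is equal to the Hodge polygon for
  all `i` if and only if this is true for `i = 2`.
* The set of places `v` of good reduction where the Newton polygon of `H^i(X_v)` is the Hodge polygon
  for all `i`, so that `X_v` is ordinary (Bloch-Kato), has positive lower density.

Idea of the proof. Let `S_i` be the slope operator of `H^i`, which acts by `λ` on the part of
slope `λ` of the crystalline cohomology. The Lie algebra `so(H²)` acts on the cohomology (Verbitsky,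
Looijenga-Lunts), and Frobenius normalizes this action. So `S_i - i / 2 = ρ_i (S_2 - 1) + T_i` where
`T_i` commutes with `so(H²)`. As `so(H²)` is perfect, `tr (ρ_i (S_2 - 1) T_i) = 0`, and `tr T_i ^ 2 ≥ 0`,
because the eigenvalues of `T_i` are rational. So the sum over `i` of the second moments of the Newton
slopes is at least `c` times the second moment of the slopes of `H²`. For the Hodge slopes there is
equality, with the same constant `c`. If `H²` is ordinary then the sum of the second moments of the
Newton slopes is at least the one for the Hodge slopes. But the Newton polygon lies above the Hodge
polygon, with the same end point, so its second moment is at most the one of the Hodge polygon in each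
degree, and if there is equality then the polygons are equal. For the density, let `v` be a place of
degree one where `H²` is not ordinary. Then all slopes of `H²` are positive, so the trace of the
Frobenius on `H²` is divisible by `N v`, and its trace on `H²(1)` is one of finitely many integers. But the
trace of `H²(1)` is not constant near the identity, and one applies Chebotarev's theorem.
-/

set_option autoImplicit false

namespace Pool.Agent.Results.MP_17d720_ag.HyperkaehlerVarieties

open Pool.Agent.N184.HK NumberField Pool.Agent.W528.Ord

/-- **Ordinary primes of hyperkähler varieties.** Let `X` be a projective hyperkähler variety over a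
number field. At a place of good reduction `X` is ordinary in all degrees if and only if it is
ordinary in degree two. The places of good reduction where `X` is ordinary in all degrees have
positive lower density. -/
theorem result {K : Type} [Field K] [NumberField K] {ℓ : ℕ} [Fact ℓ.Prime]
    (X : Hyperkaehler K ℓ) :
    (∀ v (hv : v ∉ X.bad), X.OrdinaryIn v hv 2 ↔ ∀ i ≤ X.d, X.OrdinaryIn v hv i) ∧
      0 < lowerDensity (fun v => ∃ hv : v ∉ X.bad, ∀ i ≤ X.d, X.OrdinaryIn v hv i) :=
  ⟨fun _ hv => ordinary_iff X hv, density_main X⟩

end Pool.Agent.Results.MP_17d720_ag.HyperkaehlerVarieties
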